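import Pool.Agent.HF.Stmts

/-! Squad HF: the skew field of fractions of the group ring of a poly-(infinite cyclic) group. -/

namespace Pool.Agent.HF.H32

open Pool.Agent.Glue Pool.Agent.FB Pool.Agent.CD Pool.Agent.HF
open scoped nonZeroDivisors

noncomputable section

theorem ofc {P : Type} [Group P] (a : P →₀ F2) : (MonoidAlgebra.ofCoeff a : MonoidAlgebra F2 P) =
    a.sum fun g c => (c.val : MonoidAlgebra F2 P) * MonoidAlgebra.of F2 P g := by
  conv_lhs => rw [← Finsupp.sum_single a]
  rw [MonoidAlgebra.ofCoeff_finsuppSum]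
  refine Finsupp.sum_congr fun g _ => ?_
  rw [MonoidAlgebra.natCast_def, MonoidAlgebra.of_apply, MonoidAlgebra.single_mul_single,
    ZMod.natCast_zmod_val, one_mul, mul_one]
  rfl

/-- the Ore condition -/
@[reducible] def oset {R : Type} [Ring R] [NoZeroDivisors R] [Nontrivial R]
    (h : ∀ a b : R, b ≠ 0 → ∃ p q : R, p ≠ 0 ∧ p * a = q * b) : OreLocalization.OreSet R⁰ where
  ore_right_cancel r₁ r₂ s e := ⟨1, by
    rw [mul_right_cancel₀ (nonZeroDivisors.coe_ne_zero s) e]⟩
  oreNum r s := (h r s (nonZeroDivisors.coe_ne_zero s)).choose_spec.choose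
  oreDenom r s := ⟨(h r s (nonZeroDivisors.coe_ne_zero s)).choose,
    mem_nonZeroDivisors_of_ne_zero (h r s (nonZeroDivisors.coe_ne_zero s)).choose_spec.choose_spec.1⟩
  ore_eq r s := (h r s (nonZeroDivisors.coe_ne_zero s)).choose_spec.choose_spec.2

/-- the inversion as a ring homomorphism of the group ring -/
def inv1 {P : Type} [Group P] : MonoidAlgebra F2 P →ₐ[F2] (MonoidAlgebra F2 P)ᵐᵒᵖ :=
  MonoidAlgebra.lift F2 _ P
    { toFun := fun g => MulOpposite.op (MonoidAlgebra.of F2 P g⁻¹)
      map_one' := by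
        rw [inv_one, map_one]
        rfl
      map_mul' := fun a b => by
        rw [← MulOpposite.op_mul, ← map_mul, mul_inv_rev] }

theorem inv1_of {P : Type} [Group P] (g : P) :
    inv1 (MonoidAlgebra.of F2 P g) = MulOpposite.op (MonoidAlgebra.of F2 P g⁻¹) :=
  MonoidAlgebra.lift_of _ _

theorem inv1_inv1 {P : Type} [Group P] (a : MonoidAlgebra F2 P) :
    (inv1 (inv1 a).unop).unop = a := by
  induction a using MonoidAlgebra.induction_linear with
  | zero => simp
  | add x y hx hy => rw [map_add, MulOpposite.unop_add, map_add, MulOpposite.unop_add, hx, hy]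
  | single g c =>
    have h : (MonoidAlgebra.single g c : MonoidAlgebra F2 P) = c • MonoidAlgebra.of F2 P g := by
      rw [MonoidAlgebra.of_apply, MonoidAlgebra.smul_single, smul_eq_mul, mul_one]
    rw [h, map_smul, inv1_of, ← MulOpposite.op_smul, MulOpposite.unop_op, map_smul, inv1_of,
      inv_inv]
    rfl

theorem inv1_ne {P : Type} [Group P] {a : MonoidAlgebra F2 P} (h : a ≠ 0) : inv1 a ≠ 0 := by
  intro h0
  apply h
  rw [← inv1_inv1 a, h0]
  simp

/-- DIV -/
theorem div (hd : PzdStmt) (ho : PzoStmt) : DivStmt := by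
  intro P _ hP
  have : NoZeroDivisors (MonoidAlgebra F2 P) := ⟨fun {a b} h => hd P hP a b h⟩
  let os : OreLocalization.OreSet (MonoidAlgebra F2 P)⁰ := oset (ho P hP)
  let D := OreLocalization (MonoidAlgebra F2 P)⁰ (MonoidAlgebra F2 P)
  let nu : MonoidAlgebra F2 P →+* D := OreLocalization.numeratorRingHom
  have hinj : Function.Injective nu :=
    OreLocalization.numeratorHom_inj fun x hx => by
      rw [mem_nonZeroDivisorsLeft_iff]
      intro y hy
      exact (mul_eq_zero.1 hy).resolve_left (nonZeroDivisors.coe_ne_zero ⟨x, hx⟩)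
  have key : ∀ a : P →₀ F2, (a.sum fun g c => (c.val : D) *
      (nu.toMonoidHom.comp (MonoidAlgebra.of F2 P)) g) = nu (MonoidAlgebra.ofCoeff a) := by
    intro a
    rw [ofc, map_finsuppSum]
    refine Finsupp.sum_congr fun g _ => ?_
    rw [map_mul, map_natCast]
    rfl
  let f : MonoidAlgebra F2 P →+* Dᵐᵒᵖ := (nu.op).comp (inv1 (P := P)).toRingHom
  have hf : ∀ a, a ≠ 0 → f a ≠ 0 := by
    intro a ha h0
    have h1 : nu (inv1 a).unop = 0 := congrArg MulOpposite.unop h0
    have h2 : (inv1 a).unop = 0 := hinj (by rw [h1, map_zero])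
    exact inv1_ne ha (MulOpposite.unop_injective h2)
  let fS : (MonoidAlgebra F2 P)⁰ →* (Dᵐᵒᵖ)ˣ :=
    { toFun := fun s => Units.mk0 (f s) (hf s (nonZeroDivisors.coe_ne_zero s))
      map_one' := by
        ext
        simp
      map_mul' := fun a b => by
        ext
        simp }
  let U : D →+* Dᵐᵒᵖ := OreLocalization.universalHom f fS fun s => rfl
  exact ⟨{
    D := D
    fld := inferInstance
    chr := charP_of_injective_ringHom (algebraMap F2 D).injective 2
    sg := nu.toMonoidHom.comp (MonoidAlgebra.of F2 P)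
    inj := fun a h => by
      rw [key] at h
      have h1 := hinj (h.trans (map_zero nu).symm)
      exact MonoidAlgebra.ofCoeff_injective h1
    frac := fun x => by
      induction x using OreLocalization.ind with | _ r s
      refine ⟨(s : MonoidAlgebra F2 P).coeff, r.coeff, fun h => ?_, ?_⟩
      · exact nonZeroDivisors.coe_ne_zero s (MonoidAlgebra.coeff_injective h)
      · rw [key, key]
        exact OreLocalization.mul_cancel
    io := ⟨⟨fun x => (U x).unop, by simp⟩, by simp⟩
    io_mul := fun x y => by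
      change (U (x * y)).unop = (U y).unop * (U x).unop
      rw [map_mul, MulOpposite.unop_mul]
    io_sg := fun g => by
      change (U (nu (MonoidAlgebra.of F2 P g))).unop = nu (MonoidAlgebra.of F2 P g⁻¹)
      have h : U (nu (MonoidAlgebra.of F2 P g)) = f (MonoidAlgebra.of F2 P g) :=
        OreLocalization.universalHom_commutes _ _ _
      rw [h]
      change nu (inv1 (MonoidAlgebra.of F2 P g)).unop = _
      rw [inv1_of]
      rfl }⟩

end

end Pool.Agent.HF.H32
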