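import Pool.Agent.HF.Stmts

/-! Squad HF: Foelner sets in poly-(infinite cyclic) groups and the Ore condition (PZO). -/

namespace Pool.Agent.HF.H32

open Pool.Agent.Glue Pool.Agent.FB Pool.Agent.CD Pool.Agent.HF
open scoped Pointwise

noncomputable section

open Classical in
/-- Foelner sets for translations on the right. -/
def Fol (P : Type) [Group P] : Prop := ∀ (E : Finset P) (ε : ℝ), 0 < ε →
  ∃ B : Finset P, B.Nonempty ∧ ((B * E).card : ℝ) ≤ (1 + ε) * B.card

open Classical in
theorem fol_subsingleton (P : Type) [Group P] (h : Subsingleton P) : Fol P := by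
  intro E ε hε
  refine ⟨{1}, Finset.singleton_nonempty _, ?_⟩
  have h1 : (({1} : Finset P) * E).card ≤ 1 := Finset.card_le_one_of_subsingleton _
  have h2 : ((({1} : Finset P) * E).card : ℝ) ≤ 1 := by exact_mod_cast h1
  simp only [Finset.card_singleton, Nat.cast_one, mul_one]
  linarith

open Classical in
theorem fol_step (P : Type) [Group P] (K : Subgroup P) (c : P → ℤ) (t : P)
    (hc : ∀ x y, c (x * y) = c x + c y) (hK : ∀ x, x ∈ K ↔ c x = 0) (ht : c t = 1)
    (ih : Fol K) : Fol P := by
  intro E ε hε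
  have c1 : c 1 = 0 := by
    have := hc 1 1
    rw [mul_one] at this
    omega
  have cinv : ∀ x, c x⁻¹ = - c x := fun x => by
    have := hc x x⁻¹
    rw [mul_inv_cancel, c1] at this
    omega
  let C : P →* Multiplicative ℤ :=
    { toFun := fun x => Multiplicative.ofAdd (c x)
      map_one' := by rw [c1]; rfl
      map_mul' := fun x y => by rw [hc]; rfl }
  have cz : ∀ i : ℤ, c (t ^ i) = i := fun i => by
    have h := map_zpow C t i
    have h2 := congrArg Multiplicative.toAdd h
    change c (t ^ i) = Multiplicative.toAdd ((Multiplicative.ofAdd (c t)) ^ i) at h2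
    rw [h2, ht]
    simp
  obtain ⟨d, hd⟩ : ∃ d : ℕ, ∀ e ∈ E, |c e| ≤ d := by
    refine ⟨∑ e ∈ E, (c e).natAbs, fun e he => ?_⟩
    rw [Int.abs_eq_natAbs]
    exact_mod_cast Finset.single_le_sum (f := fun e => (c e).natAbs)
      (fun _ _ => Nat.zero_le _) he
  obtain ⟨N, hN⟩ := exists_nat_gt (2 * d * (1 + ε / 2) / (ε / 2) + 1)
  have hN0 : (0 : ℝ) < N := lt_of_le_of_lt (by positivity) hN
  have hN1 : 2 * d * (1 + ε / 2) ≤ N * (ε / 2) := by
    have h1 : 2 * d * (1 + ε / 2) / (ε / 2) < N := by linarith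
    rw [div_lt_iff₀ (by positivity)] at h1
    exact h1.le
  have kmem : ∀ (i : ℤ) (e : P), t ^ i * e * t ^ (-(c e)) * t ^ (-i) ∈ K := fun i e => by
    rw [hK, hc, hc, hc, cz, cz, cz]
    ring
  let κ : ℤ → P → K := fun i e => ⟨_, kmem i e⟩
  let I : Finset ℤ := Finset.Ico 0 (N : ℤ)
  let E' : Finset K := (I ×ˢ E).image fun q => κ q.1 q.2
  obtain ⟨BK, hBn, hB⟩ := ih E' (ε / 2) (by positivity)
  let B : Finset P := (BK ×ˢ I).image fun q => (q.1 : P) * t ^ q.2
  have hI : I.card = N := by simp [I]
  have hBc : B.card = BK.card * N := by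
    rw [Finset.card_image_of_injOn, Finset.card_product, hI]
    rintro ⟨b, i⟩ _ ⟨b', i'⟩ _ h
    simp only at h
    have h1 := congrArg c h
    rw [hc, hc, cz, cz, (hK _).1 b.2, (hK _).1 b'.2] at h1
    have h2 : i = i' := by omega
    subst h2
    have h3 := mul_right_cancel h
    rw [Subtype.ext h3]
  have hsub : B * E ⊆ ((BK * E') ×ˢ Finset.Ico (-(d : ℤ)) (N + d)).image
      fun q => (q.1 : P) * t ^ q.2 := by
    intro y hy
    obtain ⟨b, hb, e, he, rfl⟩ := Finset.mem_mul.1 hy
    obtain ⟨⟨x, i⟩, hxi, rfl⟩ := Finset.mem_image.1 hb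
    rw [Finset.mem_product] at hxi
    refine Finset.mem_image.2 ⟨(x * κ i e, i + c e), ?_, ?_⟩
    · rw [Finset.mem_product]
      refine ⟨Finset.mul_mem_mul hxi.1 (Finset.mem_image.2 ⟨(i, e), ?_, rfl⟩), ?_⟩
      · rw [Finset.mem_product]
        exact ⟨hxi.2, he⟩
      · have h1 := Finset.mem_Ico.1 hxi.2
        have h2 := abs_le.1 (hd e he)
        simp only at h1
        rw [Finset.mem_Ico]
        constructor
        · change -(d : ℤ) ≤ i + c e
          omega
        · change i + c e < N + d
          omega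
    · change (x : P) * (t ^ i * e * t ^ (-(c e)) * t ^ (-i)) * t ^ (i + c e) = x * t ^ i * e
      have h0 : t ^ (-(c e)) * t ^ (-i) * t ^ (i + c e) = 1 := by
        rw [← zpow_add, ← zpow_add]
        have : -(c e) + -i + (i + c e) = 0 := by ring
        rw [this, zpow_zero]
      calc (x : P) * (t ^ i * e * t ^ (-(c e)) * t ^ (-i)) * t ^ (i + c e)
          = x * t ^ i * e * (t ^ (-(c e)) * t ^ (-i) * t ^ (i + c e)) := by
            simp only [mul_assoc]
        _ = x * t ^ i * e := by rw [h0, mul_one]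
  have hB' : ((BK * E').card : ℝ) ≤ (1 + ε / 2) * BK.card := by
    have e : ∀ d1 d2 : DecidableEq K,
        (@HMul.hMul (Finset K) (Finset K) (Finset K) (@instHMul (Finset K) (@Finset.mul K d1 _))
          BK E').card =
        (@HMul.hMul (Finset K) (Finset K) (Finset K) (@instHMul (Finset K) (@Finset.mul K d2 _))
          BK E').card := by
      intro d1 d2
      rw [Subsingleton.elim d1 d2]
    exact (le_of_eq (congrArg (Nat.cast (R := ℝ)) (e _ _))).trans hB
  have hcard : (B * E).card ≤ (BK * E').card * (N + 2 * d) := by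
    refine (Finset.card_le_card hsub).trans (Finset.card_image_le.trans ?_)
    rw [Finset.card_product, Int.card_Ico]
    refine Nat.mul_le_mul_left _ ?_
    omega
  refine ⟨B, ?_, ?_⟩
  · rw [← Finset.card_pos, hBc]
    exact Nat.mul_pos hBn.card_pos (by exact_mod_cast hN0)
  · have h1 : ((B * E).card : ℝ) ≤ (BK * E').card * (N + 2 * d) := by exact_mod_cast hcard
    have h2 : ((BK * E').card : ℝ) * (N + 2 * d) ≤ ((1 + ε / 2) * BK.card) * (N + 2 * d) :=
      mul_le_mul_of_nonneg_right hB' (by positivity)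
    rw [hBc]
    push_cast
    have h3 : (0 : ℝ) ≤ BK.card := Nat.cast_nonneg _
    nlinarith [mul_nonneg h3 (sub_nonneg.2 hN1)]

theorem fol_of (h : PziStmt) (P : Type) [i : Group P] (hP : IsPZ P) : Fol P :=
  h (fun P i => @Fol P i) (fun P i hs => @fol_subsingleton P i hs)
    (fun P i K c t hc hK ht _ ih => @fol_step P i K c t hc hK ht ih) P i hP

/-- finitely supported functions on `B` as elements of the group ring -/
def emb {P : Type} [Group P] (B : Finset P) : (B → F2) →ₗ[F2] MonoidAlgebra F2 P :=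
  (MonoidAlgebra.coeffLinearEquiv F2).symm.toLinearMap ∘ₗ
    (Finsupp.lmapDomain F2 F2 (Subtype.val : B → P)) ∘ₗ
    (Finsupp.linearEquivFunOnFinite F2 F2 B).symm.toLinearMap

theorem emb_inj {P : Type} [Group P] (B : Finset P) : Function.Injective (emb B) := by
  intro f g h
  have h1 := (MonoidAlgebra.coeffLinearEquiv F2).symm.injective h
  exact (Finsupp.linearEquivFunOnFinite F2 F2 B).symm.injective
    (Finsupp.mapDomain_injective Subtype.val_injective h1)

open Classical in
theorem emb_supp {P : Type} [Group P] (B : Finset P) (f : B → F2) :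
    (emb B f).coeff.support ⊆ B := by
  intro x hx
  change x ∈ (Finsupp.mapDomain Subtype.val
    ((Finsupp.linearEquivFunOnFinite F2 F2 B).symm f)).support at hx
  have h := Finsupp.mapDomain_support hx
  obtain ⟨y, _, rfl⟩ := Finset.mem_image.1 h
  exact y.2

/-- PZO -/
theorem pzo (hi : PziStmt) (hd : PzdStmt) : PzoStmt := by
  classical
  intro P _ hP a b hb
  obtain ⟨B, hBn, hB⟩ := fol_of hi P hP (a.coeff.support ∪ b.coeff.support) (1 / 2) (by norm_num)
  set E := a.coeff.support ∪ b.coeff.support with hE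
  let φ : ((B → F2) × (B → F2)) →ₗ[F2] ((B * E : Finset P) → F2) :=
    (LinearMap.funLeft F2 F2 (Subtype.val : (B * E : Finset P) → P)) ∘ₗ
      (Finsupp.lcoeFun : (P →₀ F2) →ₗ[F2] P → F2) ∘ₗ
      (MonoidAlgebra.coeffLinearEquiv F2).toLinearMap ∘ₗ
      (((LinearMap.mulRight F2 a) ∘ₗ emb B ∘ₗ LinearMap.fst F2 _ _) -
        ((LinearMap.mulRight F2 b) ∘ₗ emb B ∘ₗ LinearMap.snd F2 _ _))
  have hker : LinearMap.ker φ ≠ ⊥ := by
    apply LinearMap.ker_ne_bot_of_finrank_lt
    rw [Module.finrank_prod, Module.finrank_fintype_fun_eq_card, Module.finrank_fintype_fun_eq_card,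
      Fintype.card_coe, Fintype.card_coe]
    have h1 : (0 : ℝ) < B.card := by exact_mod_cast hBn.card_pos
    have h2 : (((B * E : Finset P).card : ℕ) : ℝ) < (B.card + B.card : ℕ) := by
      push_cast
      linarith
    exact_mod_cast h2
  obtain ⟨⟨p, q⟩, hpq, hne⟩ := (Submodule.ne_bot_iff _).1 hker
  have heq : emb B p * a = emb B q * b := by
    rw [← sub_eq_zero]
    apply MonoidAlgebra.coeff_injective
    ext x
    by_cases hx : x ∈ (B * E : Finset P)
    · exact congrFun (LinearMap.mem_ker.1 hpq) ⟨x, hx⟩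
    · have h1 : x ∉ (emb B p * a).coeff.support := fun h => hx
        (Finset.mul_subset_mul (emb_supp B p) Finset.subset_union_left
          (MonoidAlgebra.support_coeff_mul_subset _ _ h))
      have h2 : x ∉ (emb B q * b).coeff.support := fun h => hx
        (Finset.mul_subset_mul (emb_supp B q) Finset.subset_union_right
          (MonoidAlgebra.support_coeff_mul_subset _ _ h))
      rw [MonoidAlgebra.coeff_sub, Finsupp.sub_apply, Finsupp.notMem_support_iff.1 h1,
        Finsupp.notMem_support_iff.1 h2]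
      simp
  refine ⟨emb B p, emb B q, fun h0 => hne ?_, heq⟩
  rw [h0, zero_mul] at heq
  have h1 : p = 0 := emb_inj B (by rw [h0, map_zero])
  have h2 : q = 0 := by
    rcases hd P hP _ _ heq.symm with h | h
    · exact emb_inj B (by rw [h, map_zero])
    · exact absurd h hb
  rw [h1, h2]
  rfl

end

end Pool.Agent.HF.H32
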